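import Pool.Agent.W763.PB.Stm

/-!
# Project PB: Z4, the total weight of the shifted profile
-/

set_option autoImplicit false

namespace Pool.Agent.W168.PB

open Pool.Agent.W763.PB

theorem ww_le_kh {k : ℝ} {b m n v : ℕ} (hk : 1 ≤ k) (hb : (2 : ℝ) < b) (hm : 1 ≤ m)
    (hv : v < b * m) (hvn : b * m ≤ v + n) :
    (if v < 2 * m then k else k ^ ((((b * m : ℕ) : ℝ) - (v : ℝ)) / (((b : ℝ) - 2) * (m : ℝ)))) ≤
      kh k b m n := by
  have hm' : (1 : ℝ) ≤ m := by exact_mod_cast hm
  have hd : 0 < ((b : ℝ) - 2) * (m : ℝ) := mul_pos (by linarith) (by linarith)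
  have hvn' : (b : ℝ) * m ≤ v + n := by exact_mod_cast hvn
  unfold kh
  split_ifs with h
  · have h1 : (v : ℝ) < 2 * m := by exact_mod_cast h
    have h2 : 1 ≤ (n : ℝ) / (((b : ℝ) - 2) * (m : ℝ)) := by
      rw [le_div_iff₀ hd]
      nlinarith
    rw [min_eq_left h2, Real.rpow_one]
  · have h1 : (2 : ℝ) * m ≤ v := by exact_mod_cast not_lt.1 h
    apply Real.rpow_le_rpow_of_exponent_le hk
    rw [le_min_iff]
    push_cast
    constructor
    · rw [div_le_one hd]
      nlinarith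
    · apply div_le_div_of_nonneg_right _ hd.le
      linarith

theorem z4 : S_R0 → S_R1 → S_R2 → S_Z0 → S_Z1 → S_Z5 → S_Z4 := by
  intro hR0 _ hR2 _ hZ1 hZ5 k b m _ _ hk hb n hmn hn
  have hm : 1 ≤ m := Nat.one_le_iff_ne_zero.2 (NeZero.ne m)
  have hb64 : (64 : ℝ) ≤ b := (hR2 k b hk hb).1
  obtain ⟨_, hw, hkh, _⟩ := hZ5 k b m hk hb
  obtain ⟨hq0, hq1, hqn, _, _⟩ := hR0 k hk m hm
  have h1 := hZ1 k b m hk hb
  have h2 : ∑ t : ZMod (b * m), (Om k b m (t + n)) ^ 2 = 1 := by
    rw [← h1]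
    exact Equiv.sum_comp (Equiv.addRight (n : ZMod (b * m))) (fun s => (Om k b m s) ^ 2)
  have hkq : k * (qq k m) ^ (2 * n) ≤ 1 := by
    rw [hqn (2 * n)]
    have hk0 : 0 < k := by linarith
    nth_rewrite 1 [← Real.rpow_one k]
    rw [← Real.rpow_add hk0]
    apply Real.rpow_le_one_of_one_le_of_nonpos (by linarith)
    have hm' : (1 : ℝ) ≤ m := by exact_mod_cast hm
    have hmn' : (m : ℝ) ≤ n := by exact_mod_cast hmn
    have : (1 : ℝ) ≤ ((2 * n : ℕ) : ℝ) / (2 * (m : ℝ)) := by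
      rw [le_div_iff₀ (by linarith)]
      push_cast
      linarith
    linarith
  have hpt : ∀ t : ZMod (b * m), ww k b m t * (Om k b m (t + n)) ^ 2 ≤
      kh k b m n * (Om k b m (t + n)) ^ 2 + k * (qq k m) ^ (2 * n) * (Om k b m t) ^ 2 := by
    intro t
    have hv := ZMod.val_lt t
    have hnv : ((n : ZMod (b * m))).val = n := by
      rw [ZMod.val_natCast, Nat.mod_eq_of_lt hn]
    have hs : (t + (n : ZMod (b * m))).val = (t.val + n) % (b * m) := by
      rw [ZMod.val_add, hnv]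
    have hp1 : 0 ≤ kh k b m n * (Om k b m (t + n)) ^ 2 :=
      mul_nonneg (by linarith [(hkh n).1]) (sq_nonneg _)
    have hp2 : 0 ≤ k * (qq k m) ^ (2 * n) * (Om k b m t) ^ 2 :=
      mul_nonneg (mul_nonneg (by linarith) (pow_nonneg hq0.le _)) (sq_nonneg _)
    rcases Nat.lt_or_ge (t.val + n) (b * m) with h | h
    · rw [Nat.mod_eq_of_lt h] at hs
      rcases Nat.lt_or_ge (t.val + n) (2 * m) with h3 | h3
      · have e1 : Om k b m (t + n) = cc k m * (qq k m) ^ (t.val + n) := by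
          unfold Om
          rw [hs, if_pos h3]
        have e2 : Om k b m t = cc k m * (qq k m) ^ t.val := by
          unfold Om
          rw [if_pos (by omega)]
        have e3 : (Om k b m (t + n)) ^ 2 = (qq k m) ^ (2 * n) * (Om k b m t) ^ 2 := by
          rw [e1, e2]
          ring
        have h4 : ww k b m t * (Om k b m (t + n)) ^ 2 ≤ k * (Om k b m (t + n)) ^ 2 :=
          mul_le_mul_of_nonneg_right (hw t).2 (sq_nonneg _)
        have h5 : k * (Om k b m (t + n)) ^ 2 = k * (qq k m) ^ (2 * n) * (Om k b m t) ^ 2 := by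
          rw [e3]
          ring
        linarith
      · have e1 : Om k b m (t + n) = 0 := by
          unfold Om
          rw [hs, if_neg (by omega)]
        rw [e1] at hp1 ⊢
        linarith
    · have h3 : ww k b m t ≤ kh k b m n := ww_le_kh (by linarith) (by linarith) hm hv h
      have h4 := mul_le_mul_of_nonneg_right h3 (sq_nonneg (Om k b m (t + n)))
      linarith
  calc ∑ t : ZMod (b * m), ww k b m t * (Om k b m (t + n)) ^ 2
      ≤ ∑ t : ZMod (b * m), (kh k b m n * (Om k b m (t + n)) ^ 2 +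
          k * (qq k m) ^ (2 * n) * (Om k b m t) ^ 2) := Finset.sum_le_sum fun t _ => hpt t
    _ = kh k b m n + k * (qq k m) ^ (2 * n) := by
        rw [Finset.sum_add_distrib, ← Finset.mul_sum, ← Finset.mul_sum, h1, h2, mul_one, mul_one]
    _ ≤ 1 + kh k b m n := by linarith

end Pool.Agent.W168.PB
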